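import Pool.Agent.Lib.MP_d57abb_nt.TZ.Defs
import Pool.Agent.Lib.MP_d57abb_nt.TA.Par

/-!
# JOB Size (about 120 lines): frames and coprime pairs of sizes

For a frame `(v, w)` put `s = ll v`, `t = ll w`; `v = (s - y, y)`, `w = (t - y', y')`, `s y' - t y = 1` (ring from `dt v w = 1`), `0 ≤ y < s` (if `v.1 = 0` then `dt v w = - w.1 v.2 ≤ 0`).
* `ll_cop`: Bezout from `s y' - t y = 1`.
* `ll_inj`: `s ∣ t (y - ỹ)`, `s` and `t` coprime, `0 ≤ y, ỹ < s`, so `y = ỹ`; then `y' = ỹ'` (`s > 0`).  (Or `par_inj`.)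
* `exists_frame`: `s, t` coprime, `1 ≤ s ≤ t`: there is `0 ≤ y < s` with `s ∣ t y + 1`; `par_surj` with `A = t`, `n = s`, `j = t` (as natural numbers), `mem_CC`, `Fr`.
* `card_frames_le`: the map `x ↦ ((ll x.1).toNat, (ll x.2).toNat)` is injective with values in `Icc 1 P ×ˢ Icc 1 Q`.  Elements of `pr N 1` are frames: `mem_pr1`.
* `mem_pr1`: membership in `Bx N` gives nonnegative coordinates; neither vector is zero because `dt = 1`.
* `ratio`: `nm v * ll w - kk v w * ll v = v.2 * (v.1 * w.2 - w.1 * v.2) + ll v` when `dt v w = 1` (ring / `linear_combination`).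
-/

namespace Pool.Agent.Lib.MP_d57abb_nt.TZ

open Finset Pool.Agent.Lib.MP_d57abb_nt Pool.Agent.Lib.MP_d57abb_nt.TA

theorem mem_pr1 {N : ℕ} {x : (ℤ × ℤ) × (ℤ × ℤ)} : x ∈ pr N 1 ↔ Qd x.1 ∧ Qd x.2 ∧ dt x.1 x.2 = 1 ∧
    x.1.1 ≤ N ∧ x.1.2 ≤ N ∧ x.2.1 ≤ N ∧ x.2.2 ≤ N := by
  unfold pr Bx
  rw [mem_filter, mem_product, mem_product, mem_product, mem_Icc, mem_Icc, mem_Icc, mem_Icc]
  constructor
  · rintro ⟨⟨⟨⟨h1, h2⟩, h3, h4⟩, ⟨h5, h6⟩, h7, h8⟩, h9⟩
    refine ⟨⟨h1, h3, ?_⟩, ⟨h5, h7, ?_⟩, h9, h2, h4, h6, h8⟩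
    · intro h0
      rw [h0] at h9
      simp [dt] at h9
    · intro h0
      rw [h0] at h9
      simp [dt] at h9
  · rintro ⟨⟨h1, h3, -⟩, ⟨h5, h7, -⟩, h9, h2, h4, h6, h8⟩
    exact ⟨⟨⟨⟨h1, h2⟩, h3, h4⟩, ⟨h5, h6⟩, h7, h8⟩, h9⟩

theorem ll_cop {v w : ℤ × ℤ} (h : dt v w = 1) : IsCoprime (ll v) (ll w) := by
  refine ⟨w.2, -v.2, ?_⟩
  unfold dt at h
  unfold ll
  linear_combination h

private theorem Size_lt {v w : ℤ × ℤ} (hv : Qd v) (hw : Qd w) (h : dt v w = 1) : v.2 < ll v := by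
  have h4 : 0 < v.1 := by
    rcases lt_or_eq_of_le hv.1 with h1 | h1
    · exact h1
    · exfalso
      unfold dt at h
      rw [← h1] at h
      have h5 := mul_nonneg hw.1 hv.2.1
      linarith
  unfold ll
  linarith

private theorem Size_y {s y y' : ℤ} (h1 : 0 ≤ y) (h2 : y < s) (h3 : 0 ≤ y') (h4 : y' < s)
    (h : s ∣ y - y') : y = y' := by
  obtain ⟨k, hk⟩ := h
  have hs : 0 < s := by linarith
  have h5 : k < 1 := by
    by_contra hc
    push Not at hc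
    have := mul_le_mul_of_nonneg_left hc hs.le
    linarith
  have h6 : -1 < k := by
    by_contra hc
    push Not at hc
    have hc' : k ≤ -1 := hc
    have := mul_le_mul_of_nonneg_left hc' hs.le
    linarith
  have h7 : k = 0 := by omega
  rw [h7, mul_zero] at hk
  linarith

theorem ll_inj {v w v' w' : ℤ × ℤ} (hv : Qd v) (hw : Qd w) (h : dt v w = 1) (hv' : Qd v') (hw' : Qd w')
    (h' : dt v' w' = 1) (h1 : ll v = ll v') (h2 : ll w = ll w') : v = v' ∧ w = w' := by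
  have hs := hv.ll_pos
  have hc := ll_cop h
  have h3 : ll v ∣ ll w * (v.2 - v'.2) := by
    refine ⟨w.2 - w'.2, ?_⟩
    have e1 : ll v * w.2 - ll w * v.2 = 1 := by
      unfold dt at h
      unfold ll
      linear_combination h
    have e2 : ll v * w'.2 - ll w * v'.2 = 1 := by
      rw [h1, h2]
      unfold dt at h'
      unfold ll
      linear_combination h'
    linear_combination e2 - e1
  have h4 : ll v ∣ v.2 - v'.2 := hc.dvd_of_dvd_mul_left h3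
  have h5 : v.2 = v'.2 := by
    refine Size_y hv.2.1 (Size_lt hv hw h) hv'.2.1 ?_ h4
    rw [h1]
    exact Size_lt hv' hw' h'
  have h6 := par_inj (C := (v, w)) (C' := (v', w')) h h' hs h1 h2 h5
  exact ⟨(Prod.mk.inj h6).1, (Prod.mk.inj h6).2⟩

theorem exists_frame {s t : ℕ} (hs : 1 ≤ s) (hst : s ≤ t) (h : Nat.Coprime s t) :
    ∃ v w : ℤ × ℤ, Qd v ∧ Qd w ∧ dt v w = 1 ∧ ll v = s ∧ ll w = t := by
  have hs' : (0 : ℤ) < s := by exact_mod_cast hs
  rw [← Nat.isCoprime_iff_coprime] at h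
  obtain ⟨a, b, hab⟩ := h
  have hm1 := Int.emod_nonneg (-b) hs'.ne'
  have hm2 := Int.emod_lt_of_pos (-b) hs'
  have hm3 := Int.emod_add_mul_ediv (-b) s
  have hst' : (s : ℤ) ≤ t := by exact_mod_cast hst
  obtain ⟨C, hC, h1, h2, -⟩ := par_surj (A := t) (n := s) hs hst (j := (t : ℤ)) (y := (-b) % (s : ℤ))
    (by linarith) le_rfl hm1 hm2 (by
      refine ⟨a - ((-b) / (s : ℤ)) * t, ?_⟩
      have h1 : (-b) % (s : ℤ) = -b - s * ((-b) / s) := by linarith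
      rw [h1]
      linear_combination -hab)
  obtain ⟨⟨h3, h4, h5⟩, -⟩ := mem_CC.mp hC
  exact ⟨C.1, C.2, h3, h4, h5, h1, h2⟩

theorem card_frames_le (N P Q : ℕ) :
    ((pr N 1).filter (fun x => ll x.1 ≤ P ∧ ll x.2 ≤ Q)).card ≤ P * Q := by
  have h0 : (Icc 1 P ×ˢ Icc 1 Q).card = P * Q := by
    rw [card_product, Nat.card_Icc, Nat.card_Icc]
    simp
  rw [← h0]
  refine Finset.card_le_card_of_injOn (fun x => ((ll x.1).toNat, (ll x.2).toNat)) ?_ ?_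
  · intro x hx
    rw [mem_coe, mem_filter, mem_pr1] at hx
    obtain ⟨⟨h1, h2, h3, -⟩, h4, h5⟩ := hx
    have h6 := h1.ll_pos
    have h7 := h2.ll_pos
    rw [mem_coe, mem_product, mem_Icc, mem_Icc]
    show (1 ≤ (ll x.1).toNat ∧ (ll x.1).toNat ≤ P) ∧ 1 ≤ (ll x.2).toNat ∧ (ll x.2).toNat ≤ Q
    omega
  · intro x hx x' hx' he
    rw [mem_coe, mem_filter, mem_pr1] at hx hx'
    obtain ⟨⟨h1, h2, h3, -⟩, -⟩ := hx
    obtain ⟨⟨h1', h2', h3', -⟩, -⟩ := hx'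
    have h6 := h1.ll_pos
    have h7 := h2.ll_pos
    have h6' := h1'.ll_pos
    have h7' := h2'.ll_pos
    have e1 : (ll x.1).toNat = (ll x'.1).toNat := (Prod.mk.inj he).1
    have e2 : (ll x.2).toNat = (ll x'.2).toNat := (Prod.mk.inj he).2
    obtain ⟨g1, g2⟩ := ll_inj h1 h2 h3 h1' h2' h3' (by omega) (by omega)
    exact Prod.ext g1 g2

theorem ratio {v w : ℤ × ℤ} (h : dt v w = 1) : nm v * ll w = kk v w * ll v + v.2 + ll v := by
  unfold dt at h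
  unfold nm kk ll
  linear_combination (v.1 + 2 * v.2) * h

end Pool.Agent.Lib.MP_d57abb_nt.TZ
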