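import Pool.Agent.Lib.MP_d57abb_nt.TZ.Div
import Pool.Agent.Lib.MP_d57abb_nt.TZ.Size

/-!
# JOB Supp (about 120 lines): the sums over frames

* `supp`: let `s = ll v`, `t = ll w`, `K = 2^k`, `q = kk v w`.  `q = 0` is impossible: then `nm v / q = 0` in the reals and `hψ.sp` gives `1 / 2^k ≤ 0`.  So `q ≥ 1` (`kk_nn`).
  `1 / K ≤ nm v / q ≤ K` gives `q ≤ K nm v`, `nm v ≤ K q`; `nm_bounds`: `s² ≤ nm v ≤ (5/4) s²`; `kk_bounds` (`m = 1`): `s t ≤ q + 1 ≤ 2 q ≤ 2 K (5/4) s²`, divide by `s > 0`.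
  Everything can be cast to the reals.
* `norm_tm`: `‖aa z v‖ = 1` for `‖z‖ = 1`, `0 ≤ ψ ≤ 1`, `kk ≥ 1` (if `kk = 0` the term is `0`).
* `aa_mul`: `aa z v * aa z w = z ^ Ω(nm v * nm w)` (`ArithmeticFunction.cardFactors_mul`, `Int.natAbs_mul`, norms positive: `TP.nm_pos`, `tp_of_Qd`), and `(nm v * nm w).natAbs = ff (kk)` by `kk_eq`.
* `Ts_frames`: the sum over `k ∈ Icc 1 N` of `sum_div k M` applied to `F n = (ψ (n / k) / k : ℂ) * z ^ om k` (`push_cast`, `Finset.sum_div`, `sum_mul`), and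
  `Finset.sum_fiberwise_of_maps_to`-type regrouping of the frames by `(kk x.1 x.2).toNat ∈ Icc 1 N`; on the fibre `tm ψ z x = F (nm x.1)` by `aa_mul`.
* `GN_frames`: `GN ψ z γ 1 j` is the sum over `pr (2^(γ+j)) 1`, a subset of `pr M 1`; the terms of the difference vanish (`Finset.sum_subset`): if `hh (s / 2^j) ≠ 0` and `ψ (..) ≠ 0`, `s < 2^(j+1)`
  (`hh_supp` of `Hh`, or directly from the definition) and by `supp` `2 t ≤ 5 2^k s < 10 2^(k + j)`, so all the coordinates of `v`, `w` are `≤ max s t ≤ 2^(k+5+j)`.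
-/

namespace Pool.Agent.Lib.MP_d57abb_nt.TZ

open Finset Pool.Agent.Lib.MP_d57abb_nt Pool.Agent.Lib.MP_d57abb_nt.TA

theorem supp {ψ : ℝ → ℝ} {k : ℕ} {L : ℝ} (hψ : PW ψ k L) {v w : ℤ × ℤ} (hv : Qd v) (hw : Qd w)
    (h : dt v w = 1) (h0 : ψ (nm v / kk v w) ≠ 0) :
    1 ≤ kk v w ∧ (ll v) ^ 2 ≤ 2 ^ k * kk v w ∧ 4 * kk v w ≤ 5 * 2 ^ k * (ll v) ^ 2 ∧
      2 * ll w ≤ 5 * 2 ^ k * ll v := by
  obtain ⟨h1, h2⟩ := hψ.sp _ h0
  have hq0 : 0 ≤ kk v w := kk_nn hv hw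
  have hK : (0 : ℝ) < 2 ^ k := by positivity
  have hq : 1 ≤ kk v w := by
    by_contra hcon
    have h3 : kk v w = 0 := by omega
    rw [h3, Int.cast_zero, div_zero] at h1
    have h4 : (0 : ℝ) < 1 / 2 ^ k := by positivity
    linarith
  have hqR : (0 : ℝ) < (kk v w : ℝ) := by
    have : 0 < kk v w := by omega
    exact_mod_cast this
  have h3 : nm v ≤ 2 ^ k * kk v w := by
    have h4 : (nm v : ℝ) ≤ 2 ^ k * (kk v w : ℝ) := (div_le_iff₀ hqR).1 h2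
    exact_mod_cast h4
  have h4 : kk v w ≤ 2 ^ k * nm v := by
    have h5 : (kk v w : ℝ) ≤ 2 ^ k * (nm v : ℝ) := by
      rw [div_le_div_iff₀ hK hqR] at h1
      linarith
    exact_mod_cast h5
  obtain ⟨h5, h6⟩ := nm_bounds hv
  have hKz : (0 : ℤ) < 2 ^ k := by positivity
  have h7 : 4 * kk v w ≤ 5 * 2 ^ k * (ll v) ^ 2 := by
    have h8 : 2 ^ k * (4 * nm v) ≤ 2 ^ k * (5 * (ll v) ^ 2) := mul_le_mul_of_nonneg_left h6 hKz.le
    linarith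
  refine ⟨hq, h5.trans h3, h7, ?_⟩
  have h8 := (kk_bounds hv hw (by norm_num : (0 : ℤ) ≤ 1) h).1
  have hl : 0 < ll v := hv.ll_pos
  have h9 : (2 * ll w) * ll v ≤ (5 * 2 ^ k * ll v) * ll v := by
    have h10 : (2 * ll w) * ll v ≤ 4 * kk v w := by
      have : ll v * ll w ≤ kk v w + 1 := by linarith
      linarith
    calc (2 * ll w) * ll v ≤ 4 * kk v w := h10
      _ ≤ 5 * 2 ^ k * (ll v) ^ 2 := h7
      _ = (5 * 2 ^ k * ll v) * ll v := by ring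
  exact le_of_mul_le_mul_right h9 hl

theorem aa_mul {z : ℂ} {v w : ℤ × ℤ} (hv : Qd v) (hw : Qd w) (h : dt v w = 1) {k : ℕ} (hk : kk v w = k) :
    aa z v * aa z w = z ^ om k := by
  have h1 := (tp_of_Qd hv).nm_pos
  have h2 := (tp_of_Qd hw).nm_pos
  have h3 : ff k = (nm v).natAbs * (nm w).natAbs := by
    have h4 := kk_eq h
    rw [hk] at h4
    rw [← Int.natAbs_mul, ← h4]
    have h5 : ((k : ℤ) ^ 2 + 3 * k + 1) = ((ff k : ℕ) : ℤ) := by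
      unfold ff
      push_cast
      ring
    rw [h5, Int.natAbs_natCast]
  unfold aa om
  rw [← pow_add, h3, ArithmeticFunction.cardFactors_mul (Int.natAbs_ne_zero.2 h1.ne')
    (Int.natAbs_ne_zero.2 h2.ne')]

private theorem Supp_norm_aa {z : ℂ} (hz : ‖z‖ = 1) (v : ℤ × ℤ) : ‖aa z v‖ = 1 := by
  unfold aa
  rw [norm_pow, hz, one_pow]

theorem norm_tm {ψ : ℝ → ℝ} {k : ℕ} {L : ℝ} (hψ : PW ψ k L) {z : ℂ} (hz : ‖z‖ = 1)
    {x : (ℤ × ℤ) × (ℤ × ℤ)} (h : 0 ≤ kk x.1 x.2) : ‖tm ψ z x‖ ≤ 1 / (kk x.1 x.2 : ℝ) := by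
  have hq : (0 : ℝ) ≤ (kk x.1 x.2 : ℝ) := by exact_mod_cast h
  unfold tm
  rw [norm_mul, norm_mul, Supp_norm_aa hz, Supp_norm_aa hz, mul_one, mul_one, Complex.norm_real,
    Real.norm_of_nonneg (div_nonneg (hψ.nn _) hq)]
  exact div_le_div_of_nonneg_right (hψ.le _) hq

theorem Ts_frames (ψ : ℝ → ℝ) (z : ℂ) (N M : ℕ) (hM : N + 1 ≤ M) :
    Ts ψ z N = ∑ x ∈ (pr M 1).filter (fun x => 1 ≤ kk x.1 x.2 ∧ kk x.1 x.2 ≤ N), tm ψ z x := by
  have hmap : ∀ x ∈ (pr M 1).filter (fun x => 1 ≤ kk x.1 x.2 ∧ kk x.1 x.2 ≤ N),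
      (kk x.1 x.2).toNat ∈ Icc 1 N := by
    intro x hx
    have h1 := (mem_filter.1 hx).2
    rw [mem_Icc]
    omega
  rw [← Finset.sum_fiberwise_of_maps_to hmap]
  unfold Ts
  refine Finset.sum_congr rfl fun q hq => ?_
  rw [mem_Icc] at hq
  have h1 : ((pr M 1).filter (fun x => 1 ≤ kk x.1 x.2 ∧ kk x.1 x.2 ≤ N)).filter
      (fun x => (kk x.1 x.2).toNat = q) = (pr M 1).filter (fun x => kk x.1 x.2 = q) := by
    rw [Finset.filter_filter]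
    refine Finset.filter_congr fun x _ => ?_
    constructor
    · rintro ⟨⟨h2, h3⟩, h4⟩
      omega
    · intro h2
      omega
  rw [h1]
  have h2 : ∑ x ∈ (pr M 1).filter (fun x => kk x.1 x.2 = q), tm ψ z x =
      ∑ x ∈ (pr M 1).filter (fun x => kk x.1 x.2 = q),
        (fun n : ℤ => ((ψ ((n : ℝ) / q) / q : ℝ) : ℂ) * z ^ om q) (nm x.1) := by
    refine Finset.sum_congr rfl fun x hx => ?_
    obtain ⟨h3, h4⟩ := mem_filter.1 hx
    obtain ⟨h5, h6, h7, -⟩ := mem_pr1.1 h3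
    unfold tm
    rw [mul_assoc, aa_mul h5 h6 h7 h4, h4]
    push_cast
    rfl
  rw [h2, sum_div q M (by omega) (fun n : ℤ => ((ψ ((n : ℝ) / q) / q : ℝ) : ℂ) * z ^ om q),
    ← Finset.sum_mul, Finset.sum_div]
  congr 1
  push_cast
  rfl

private theorem Supp_hh {x : ℝ} (h : hh x ≠ 0) : x < 2 := by
  by_contra hcon
  push Not at hcon
  apply h
  unfold hh
  exact max_eq_left ((min_le_right _ _).trans (by linarith))

theorem GN_frames {ψ : ℝ → ℝ} {k : ℕ} {L : ℝ} (hψ : PW ψ k L) (z : ℂ) (j M : ℕ)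
    (hM : 2 ^ (k + 5 + j) ≤ M) :
    GN ψ z (k + 5) 1 j = ∑ x ∈ pr M 1, ((hh (ll x.1 / 2 ^ j) : ℝ) : ℂ) * tm ψ z x := by
  have hMz : (2 : ℤ) ^ (k + 5 + j) ≤ M := by exact_mod_cast hM
  have hsub : pr (2 ^ (k + 5 + j)) 1 ⊆ pr M 1 := by
    intro x hx
    rw [mem_pr1] at hx ⊢
    push_cast at hx
    obtain ⟨h1, h2, h3, h4, h5, h6, h7⟩ := hx
    exact ⟨h1, h2, h3, h4.trans hMz, h5.trans hMz, h6.trans hMz, h7.trans hMz⟩
  have h0 : GN ψ z (k + 5) 1 j =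
      ∑ x ∈ pr (2 ^ (k + 5 + j)) 1, ((hh (ll x.1 / 2 ^ j) : ℝ) : ℂ) * tm ψ z x := by
    unfold GN
    rw [Nat.cast_one]
    refine Finset.sum_congr rfl fun x _ => ?_
    unfold tm
    push_cast
    ring
  rw [h0]
  refine Finset.sum_subset hsub fun x hx hxn => ?_
  by_contra hne
  apply hxn
  have hhne : hh (ll x.1 / 2 ^ j) ≠ 0 := by
    intro h1
    apply hne
    rw [h1]
    simp
  have hψne : ψ (nm x.1 / kk x.1 x.2) ≠ 0 := by
    intro h1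
    apply hne
    unfold tm
    rw [h1]
    simp
  rw [mem_pr1] at hx ⊢
  obtain ⟨h1, h2, h3, -⟩ := hx
  obtain ⟨-, -, -, h4⟩ := supp hψ h1 h2 h3 hψne
  have h5 := Supp_hh hhne
  have h6 : ll x.1 < 2 * 2 ^ j := by
    have h7 : (ll x.1 : ℝ) < 2 * 2 ^ j := by
      rwa [div_lt_iff₀ (by positivity)] at h5
    exact_mod_cast h7
  have hk1 : (1 : ℤ) ≤ 2 ^ k := one_le_pow₀ (by norm_num)
  have hj1 : (0 : ℤ) < 2 ^ j := by positivity
  have e1 : (2 : ℤ) ^ (k + 5 + j) = 32 * (2 ^ k * 2 ^ j) := by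
    rw [pow_add, pow_add]
    ring
  have h7 : ll x.1 ≤ 2 ^ (k + 5 + j) := by
    rw [e1]
    have h8 : 1 * (2 : ℤ) ^ j ≤ 2 ^ k * 2 ^ j := mul_le_mul_of_nonneg_right hk1 hj1.le
    linarith
  have h8 : ll x.2 ≤ 2 ^ (k + 5 + j) := by
    rw [e1]
    have h9 : 5 * 2 ^ k * ll x.1 ≤ 5 * 2 ^ k * (2 * 2 ^ j) :=
      mul_le_mul_of_nonneg_left h6.le (by positivity)
    have h10 : (0 : ℤ) < 2 ^ k * 2 ^ j := by positivity
    linarith
  unfold ll at h7 h8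
  have a1 := h1.1
  have a2 := h1.2.1
  have a3 := h2.1
  have a4 := h2.2.1
  push_cast
  exact ⟨h1, h2, h3, by linarith, by linarith, by linarith, by linarith⟩

end Pool.Agent.Lib.MP_d57abb_nt.TZ
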