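import Pool.Agent.Lib.MP_d57abb_nt.TZ.Div
import Pool.Agent.Lib.MP_d57abb_nt.TZ.Size
import Pool.Agent.Lib.MP_d57abb_nt.TA.Phi

/-!
# JOB Low (about 180 lines): the main term is at least `c₀ log N`

(1) `card_block`: for `0 < λ ≤ 1` there are `c₁ > 0`, `Z₀` such that for `Z ≥ Z₀`: `#{(s, u) | Z < s ≤ 2 Z, 1 ≤ u ≤ λ Z, gcd(s, u) = 1} ≥ c₁ Z²`.  For fixed `u ≤ Z` the interval `(Z, 2Z]` contains `Z / u`
(natural division) disjoint blocks of `u` consecutive integers, each with `φ(u)` integers prime to `u` (`Nat.filter_coprime_Ico_eq_totient`), and `Z / u ≥ Z / (2 u)` in the reals.  So the number is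
`≥ ∑_{u ≤ λ Z} Z φ(u) / (2 u) ≥ (1 / (2 λ)) ∑_{u ≤ ⌊λ Z⌋} φ(u) ≥ (1 / (2 λ)) (c / 2) ⌊λ Z⌋²` for large `Z` by `sum_totient_lim`.
(2) `low`: let `λ = min 1 ((c - 1) / 2)`, so `1 + λ < c`.  For `(s, u)` as in (1) put `t = s + u ≤ (1 + λ) s` (`u ≤ λ Z ≤ λ s`), coprime to `s`, and take the frame `(v, w)` of `exists_frame`.
`ratio`: `nm v / kk = s / t + (v.2 + s) / (kk t)`, so `nm v / kk ≥ s / t ≥ 1 / (1 + λ) ≥ 1 / c` and `nm v / kk ≤ 1 + 2 s / (kk t) ≤ 1 + 2 / kk ≤ c` if `kk ≥ 2 / (c - 1)`, true for large `Z`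
(`kk ≥ s t - 1 ≥ Z²`, `kk_bounds`).  `kk ≤ (5/4) s t ≤ 5 s² / 2 · ... ≤ 10 Z²` (`t ≤ 2 s ≤ 4 Z`, `kk ≤ (5/4) (2 Z)(4 Z) = 10 Z²`).  So every `(s, u)` gives a pair `(k, d)`, `k = kk`, `d = nm v ∣ ff k`
(`kk_eq`), `Z² ≤ k ≤ 10 Z²`, counted in `tc c k`; different `(s, u)` give different frames, hence different `(k, d)` (`div_inj`).  For `Z = Z_i = 2^i`... choose `Z = 4^i`: the intervals `[Z², 10 Z²]`,
`Z = 4^i`, are disjoint (`10 · 16^i < 16^(i+1)`), each contributes at least `c₁ Z² / (10 Z²) = c₁ / 10` to `∑ tc c k / k`.  The number of `i` with `Z₀ ≤ 4^i`, `10 · 16^i ≤ N` is at least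
`log N / log 16 - C ≥ log N / (2 log 16)` for large `N`.
-/

namespace Pool.Agent.Lib.MP_d57abb_nt.TZ

open Finset Pool.Agent.Lib.MP_d57abb_nt Pool.Agent.Lib.MP_d57abb_nt.TA

private theorem Low_blk (a q n : ℕ) :
    ((Ico n (n + q * a)).filter (fun x => Nat.Coprime x a)).card = q * a.totient := by
  induction q with
  | zero => simp
  | succ q ih =>
    have h1 : Ico n (n + (q + 1) * a) = Ico n (n + q * a) ∪ Ico (n + q * a) (n + q * a + a) := by
      rw [Finset.Ico_union_Ico_eq_Ico (by omega) (by omega)]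
      congr 1
      ring
    have h2 : Disjoint (Ico n (n + q * a)) (Ico (n + q * a) (n + q * a + a)) :=
      Finset.Ico_disjoint_Ico_consecutive _ _ _
    rw [h1, Finset.filter_union, Finset.card_union_of_disjoint (Finset.disjoint_filter_filter h2), ih]
    have h3 : (Ico (n + q * a) (n + q * a + a)).filter (fun x => Nat.Coprime x a) =
        (Ico (n + q * a) (n + q * a + a)).filter (fun x => Nat.Coprime a x) := by
      apply Finset.filter_congr
      intro x _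
      exact Nat.coprime_comm
    rw [h3, Nat.filter_coprime_Ico_eq_totient]
    ring

private theorem Low_fib (Z u : ℕ) (hu : 1 ≤ u) (huZ : u ≤ Z) :
    (Z : ℝ) / (2 * u) * (u.totient : ℝ) ≤ (((Ioc Z (2 * Z)).filter (fun x => Nat.Coprime x u)).card : ℝ) := by
  have h1 : ((Ico (Z + 1) (Z + 1 + Z / u * u)).filter (fun x => Nat.Coprime x u)).card ≤
      ((Ioc Z (2 * Z)).filter (fun x => Nat.Coprime x u)).card := by
    apply Finset.card_le_card
    apply Finset.filter_subset_filter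
    intro x hx
    rw [mem_Ico] at hx
    rw [mem_Ioc]
    have := Nat.div_mul_le_self Z u
    omega
  rw [Low_blk] at h1
  have h2 : (((Z / u * u.totient : ℕ)) : ℝ) ≤
      (((Ioc Z (2 * Z)).filter (fun x => Nat.Coprime x u)).card : ℝ) := by exact_mod_cast h1
  refine le_trans ?_ h2
  rw [Nat.cast_mul]
  apply mul_le_mul_of_nonneg_right _ (Nat.cast_nonneg _)
  have hu' : (0 : ℝ) < u := by exact_mod_cast hu
  rw [div_le_iff₀ (by positivity)]
  have h3 : Z ≤ Z / u * (2 * u) := by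
    have h4 := Nat.div_add_mod Z u
    have h5 := Nat.mod_lt Z (show 0 < u by omega)
    have h6 : 1 ≤ Z / u := (Nat.one_le_div_iff (by omega)).mpr huZ
    nlinarith
  exact_mod_cast h3

theorem card_block (l : ℝ) (hl : 0 < l) (hl1 : l ≤ 1) : ∃ c1 : ℝ, 0 < c1 ∧ ∃ Z0 : ℕ, ∀ Z : ℕ, Z0 ≤ Z →
    c1 * (Z : ℝ) ^ 2 ≤ (((Ioc Z (2 * Z) ×ˢ Icc 1 ⌊l * Z⌋₊).filter
      (fun x => Nat.Coprime x.1 x.2)).card : ℝ) := by
  obtain ⟨c, hc, hlim⟩ := sum_totient_lim
  have hev := hlim.eventually (lt_mem_nhds (show c / 2 < c by linarith))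
  obtain ⟨A0, hA0⟩ := Filter.eventually_atTop.mp hev
  refine ⟨c * l / 8, by positivity, ⌈((A0 : ℝ) + 2) / l⌉₊, ?_⟩
  intro Z hZ
  have hZ1 : ((A0 : ℝ) + 2) / l ≤ Z := (Nat.le_ceil _).trans (by exact_mod_cast hZ)
  rw [div_le_iff₀ hl] at hZ1
  have hA0' : (0 : ℝ) ≤ A0 := Nat.cast_nonneg _
  have hZ0 : (0 : ℝ) ≤ Z := Nat.cast_nonneg _
  set U : ℕ := ⌊l * Z⌋₊ with hU
  have hU1 : l * Z < U + 1 := Nat.lt_floor_add_one _
  have hU2 : (U : ℝ) ≤ l * Z := Nat.floor_le (by positivity)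
  have hUA : A0 ≤ U := by
    have : (A0 : ℝ) ≤ U := by nlinarith
    exact_mod_cast this
  have hUr : (1 : ℝ) < U := by nlinarith
  have hUZ : U ≤ Z := by
    have : (U : ℝ) ≤ Z := hU2.trans (by nlinarith)
    exact_mod_cast this
  have hcard : (((Ioc Z (2 * Z) ×ˢ Icc 1 U).filter (fun x => Nat.Coprime x.1 x.2)).card : ℝ) =
      ∑ u ∈ Icc 1 U, (((Ioc Z (2 * Z)).filter (fun x => Nat.Coprime x u)).card : ℝ) := by
    rw [← Nat.cast_sum]
    congr 1
    rw [Finset.card_filter, Finset.sum_product_right]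
    apply Finset.sum_congr rfl
    intro u _
    rw [Finset.card_filter]
  rw [hcard]
  have h1 : ∑ u ∈ Icc 1 U, (Z : ℝ) / (2 * U) * (u.totient : ℝ) ≤
      ∑ u ∈ Icc 1 U, (((Ioc Z (2 * Z)).filter (fun x => Nat.Coprime x u)).card : ℝ) := by
    apply Finset.sum_le_sum
    intro u hu
    rw [mem_Icc] at hu
    refine le_trans ?_ (Low_fib Z u hu.1 (hu.2.trans hUZ))
    apply mul_le_mul_of_nonneg_right _ (Nat.cast_nonneg _)
    have hu1 : (0 : ℝ) < u := by exact_mod_cast hu.1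
    have hu2 : (u : ℝ) ≤ U := by exact_mod_cast hu.2
    apply div_le_div_of_nonneg_left hZ0 (by positivity)
    linarith
  refine le_trans ?_ h1
  rw [← Finset.mul_sum]
  have h2 := hA0 U hUA
  rw [lt_div_iff₀ (by positivity)] at h2
  rw [Nat.cast_sum] at h2
  have h3 : (Z : ℝ) / (2 * U) * (c / 2 * (U : ℝ) ^ 2) ≤
      (Z : ℝ) / (2 * U) * ∑ u ∈ Icc 1 U, (u.totient : ℝ) :=
    mul_le_mul_of_nonneg_left h2.le (by positivity)
  refine le_trans ?_ h3
  have h4 : (Z : ℝ) / (2 * U) * (c / 2 * (U : ℝ) ^ 2) = c / 4 * (Z * U) := by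
    field_simp
    ring
  rw [h4]
  have h5 : l * Z / 2 ≤ U := by linarith
  have h6 : (Z : ℝ) * (l * Z / 2) ≤ Z * U := mul_le_mul_of_nonneg_left h5 hZ0
  nlinarith

open Classical in
theorem low_block (c : ℝ) (hc : 1 < c) : ∃ δ : ℝ, 0 < δ ∧ ∃ Z1 : ℕ, ∀ Z : ℕ, Z1 ≤ Z →
    δ ≤ ∑ k ∈ Icc (Z ^ 2) (10 * Z ^ 2), (tc c k : ℝ) / k := by
  have hl : 0 < min 1 ((c - 1) / 2) := lt_min one_pos (by linarith)
  set l := min 1 ((c - 1) / 2) with hldef
  have hl1 : l ≤ 1 := min_le_left _ _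
  have hl2 : l ≤ (c - 1) / 2 := min_le_right _ _
  obtain ⟨c1, hc1, Z0, hZ0⟩ := card_block l hl hl1
  refine ⟨c1 / 10, by positivity, max Z0 (⌈2 / (c - 1)⌉₊ + 1), ?_⟩
  intro Z hZ
  have hZa : Z0 ≤ Z := (le_max_left _ _).trans hZ
  have hZb : ⌈2 / (c - 1)⌉₊ + 1 ≤ Z := (le_max_right _ _).trans hZ
  have hZpos : 1 ≤ Z := by omega
  have hZc : 2 / (c - 1) ≤ Z := (Nat.le_ceil _).trans (by exact_mod_cast (by omega : ⌈2 / (c - 1)⌉₊ ≤ Z))
  have hc' : 0 < c - 1 := by linarith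
  rw [div_le_iff₀ hc'] at hZc
  have hZr : (1 : ℝ) ≤ Z := by exact_mod_cast hZpos
  have hU2 : ((⌊l * Z⌋₊ : ℕ) : ℝ) ≤ l * Z := Nat.floor_le (by positivity)
  set U : ℕ := ⌊l * Z⌋₊ with hU
  have hUZ : U ≤ Z := by
    have : (U : ℝ) ≤ Z := hU2.trans (by nlinarith)
    exact_mod_cast this
  have hS := hZ0 Z hZa
  set S := (Ioc Z (2 * Z) ×ˢ Icc 1 U).filter (fun x => Nat.Coprime x.1 x.2) with hSdef
  have hfr : ∀ x ∈ S, ∃ C : (ℤ × ℤ) × (ℤ × ℤ), Qd C.1 ∧ Qd C.2 ∧ dt C.1 C.2 = 1 ∧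
      ll C.1 = (x.1 : ℕ) ∧ ll C.2 = ((x.1 + x.2 : ℕ) : ℤ) := by
    intro x hx
    rw [hSdef, mem_filter, mem_product, mem_Ioc, mem_Icc] at hx
    obtain ⟨v, w, h⟩ := exists_frame (s := x.1) (t := x.1 + x.2) (by omega) (by omega)
      (by simpa using hx.2)
    exact ⟨(v, w), h⟩
  choose! C hC using hfr
  -- the properties of the frames
  have hprop : ∀ x ∈ S, (Z : ℤ) ^ 2 ≤ kk (C x).1 (C x).2 ∧ kk (C x).1 (C x).2 ≤ 10 * (Z : ℤ) ^ 2 ∧
      0 < nm (C x).1 ∧ ((kk (C x).1 (C x).2 : ℤ) : ℝ) ≤ c * nm (C x).1 ∧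
      ((nm (C x).1 : ℤ) : ℝ) ≤ c * kk (C x).1 (C x).2 := by
    intro x hx
    obtain ⟨h1, h2, h3, h4, h5⟩ := hC x hx
    have hx' := hx
    rw [hSdef, mem_filter, mem_product, mem_Ioc, mem_Icc] at hx'
    obtain ⟨⟨⟨hx1, hx2⟩, hx3, hx4⟩, -⟩ := hx'
    obtain ⟨hk1, hk2⟩ := kk_bounds h1 h2 (by norm_num : (0 : ℤ) ≤ 1) h3
    have hr := ratio h3
    have hnm := (tp_of_Qd h1).nm_pos
    have hv2 : (C x).1.2 ≤ ll (C x).1 := by
      have := h1.1
      unfold ll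
      linarith
    have hv20 : 0 ≤ (C x).1.2 := h1.2.1
    rw [h4, h5] at hk1 hk2 hr
    rw [h4] at hv2
    set k := kk (C x).1 (C x).2 with hk
    set d := nm (C x).1 with hd
    set y := (C x).1.2 with hy
    set s := x.1 with hs
    set u := x.2 with hu
    have hx1' : (Z : ℤ) + 1 ≤ s := by exact_mod_cast hx1
    have hx2' : (s : ℤ) ≤ 2 * Z := by exact_mod_cast hx2
    have hx3' : (1 : ℤ) ≤ u := by exact_mod_cast hx3
    have hx4' : (u : ℤ) ≤ Z := by exact_mod_cast hx4.trans hUZ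
    have hZi : (1 : ℤ) ≤ Z := by exact_mod_cast hZpos
    push_cast at hk1 hk2 hr
    have hkZ : (Z : ℤ) ^ 2 ≤ k := by nlinarith
    have hkZ2 : k ≤ 10 * (Z : ℤ) ^ 2 := by
      have h6 : (s : ℤ) * (s + u) ≤ (2 * Z) * (3 * Z) :=
        mul_le_mul hx2' (by linarith) (by linarith) (by linarith)
      nlinarith
    refine ⟨hkZ, hkZ2, hnm, ?_, ?_⟩
    · -- k ≤ c d
      have hr' : (d : ℝ) * (s + u) = k * s + y + s := by exact_mod_cast hr
      have hul : (u : ℝ) ≤ l * s := by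
        have h7 : (u : ℝ) ≤ U := by exact_mod_cast hx4
        have h8 : (Z : ℝ) ≤ s := by exact_mod_cast (by omega : Z ≤ s)
        exact h7.trans (hU2.trans (mul_le_mul_of_nonneg_left h8 hl.le))
      have hs0 : (0 : ℝ) < s := by
        have : (1 : ℝ) ≤ s := by exact_mod_cast (by omega : 1 ≤ s)
        linarith
      have hd0 : (0 : ℝ) < d := by exact_mod_cast hnm
      have hy0 : (0 : ℝ) ≤ y := by exact_mod_cast hv20
      have h9 : (k : ℝ) * s ≤ (c * d) * s := by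
        have h10 : (d : ℝ) * (s + u) ≤ d * (c * s) := by
          apply mul_le_mul_of_nonneg_left _ hd0.le
          nlinarith
        nlinarith
      exact le_of_mul_le_mul_right h9 hs0
    · have h6 : d * (s + u) ≤ (k + 2) * (s + u) := by nlinarith
      have h7 : d ≤ k + 2 := le_of_mul_le_mul_right h6 (by linarith)
      have h8 : (d : ℝ) ≤ k + 2 := by exact_mod_cast h7
      have h9 : (Z : ℝ) ^ 2 ≤ k := by exact_mod_cast hkZ
      have h10 : (Z : ℝ) ≤ k := by nlinarith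
      have h11 : (2 : ℝ) ≤ k * (c - 1) := hZc.trans (mul_le_mul_of_nonneg_right h10 hc'.le)
      nlinarith
  have hle : S.card ≤ ∑ k ∈ Icc (Z ^ 2) (10 * Z ^ 2), tc c k := by
    have h1 : ∑ k ∈ Icc (Z ^ 2) (10 * Z ^ 2), tc c k =
        ((Icc (Z ^ 2) (10 * Z ^ 2)).sigma (fun k => (ff k).divisors.filter
          (fun d : ℕ => (k : ℝ) ≤ c * d ∧ (d : ℝ) ≤ c * k))).card := by
      rw [Finset.card_sigma]
      apply Finset.sum_congr rfl
      intro k _
      unfold tc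
      rfl
    rw [h1]
    apply Finset.card_le_card_of_injOn
      (fun x => ⟨(kk (C x).1 (C x).2).toNat, (nm (C x).1).toNat⟩)
    · intro x hx
      have hx' : x ∈ S := hx
      obtain ⟨g1, g2, g3, g4, g5⟩ := hprop x hx'
      obtain ⟨h1, h2, h3, h4, h5⟩ := hC x hx'
      have hk0 : 0 ≤ kk (C x).1 (C x).2 := le_trans (by positivity) g1
      obtain ⟨k, hk⟩ := Int.eq_ofNat_of_zero_le hk0
      obtain ⟨d, hd⟩ := Int.eq_ofNat_of_zero_le g3.le
      have he := kk_eq h3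
      rw [hk] at g1 g2 g4 g5 he
      rw [hd] at g3 g4 g5 he
      simp only [Finset.coe_sigma, Set.mem_sigma_iff, Finset.mem_coe, hk, hd, Int.toNat_natCast,
        mem_filter, mem_Icc, Nat.mem_divisors]
      refine ⟨⟨by exact_mod_cast g1, by exact_mod_cast g2⟩, ⟨?_, ?_⟩, by exact_mod_cast g4, by exact_mod_cast g5⟩
      · have : (d : ℤ) ∣ (ff k : ℕ) := by
          refine ⟨nm (C x).2, ?_⟩
          unfold ff
          push_cast
          exact he
        exact_mod_cast this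
      · unfold ff
        omega
    · intro x hx x' hx' hxx
      have hx1 : x ∈ S := hx
      have hx2 : x' ∈ S := hx'
      obtain ⟨g1, g2, g3, g4, g5⟩ := hprop x hx1
      obtain ⟨h1, h2, h3, h4, h5⟩ := hC x hx1
      obtain ⟨g1', g2', g3', g4', g5'⟩ := hprop x' hx2
      obtain ⟨h1', h2', h3', h4', h5'⟩ := hC x' hx2
      simp only [Sigma.mk.injEq, heq_eq_eq] at hxx
      obtain ⟨ha, hb⟩ := hxx
      have hk0 : 0 ≤ kk (C x).1 (C x).2 := le_trans (by positivity) g1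
      have hk0' : 0 ≤ kk (C x').1 (C x').2 := le_trans (by positivity) g1'
      have ha' : kk (C x).1 (C x).2 = kk (C x').1 (C x').2 := by
        rw [← Int.toNat_of_nonneg hk0, ← Int.toNat_of_nonneg hk0', ha]
      have hb' : nm (C x).1 = nm (C x').1 := by
        rw [← Int.toNat_of_nonneg g3.le, ← Int.toNat_of_nonneg g3'.le, hb]
      obtain ⟨e1, e2⟩ := div_inj h1 h2 h3 h1' h2' h3' ha' hb'
      rw [e1, h4'] at h4
      rw [e2, h5'] at h5
      have h6 : x'.1 = x.1 := by exact_mod_cast h4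
      have h7 : x'.1 + x'.2 = x.1 + x.2 := by exact_mod_cast h5
      apply Prod.ext
      · exact h6.symm
      · omega
  have hsum : (S.card : ℝ) / (10 * (Z : ℝ) ^ 2) ≤ ∑ k ∈ Icc (Z ^ 2) (10 * Z ^ 2), (tc c k : ℝ) / k := by
    have h1 : (S.card : ℝ) ≤ ∑ k ∈ Icc (Z ^ 2) (10 * Z ^ 2), (tc c k : ℝ) := by exact_mod_cast hle
    calc (S.card : ℝ) / (10 * (Z : ℝ) ^ 2)
        ≤ (∑ k ∈ Icc (Z ^ 2) (10 * Z ^ 2), (tc c k : ℝ)) / (10 * (Z : ℝ) ^ 2) :=
          div_le_div_of_nonneg_right h1 (by positivity)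
      _ = ∑ k ∈ Icc (Z ^ 2) (10 * Z ^ 2), (tc c k : ℝ) / (10 * (Z : ℝ) ^ 2) := Finset.sum_div _ _ _
      _ ≤ _ := by
        apply Finset.sum_le_sum
        intro k hk
        rw [mem_Icc] at hk
        have hk1 : (0 : ℝ) < k := by
          have : 0 < Z ^ 2 := by positivity
          exact_mod_cast (by omega : 0 < k)
        have hk2 : (k : ℝ) ≤ 10 * (Z : ℝ) ^ 2 := by exact_mod_cast hk.2
        exact div_le_div_of_nonneg_left (Nat.cast_nonneg _) hk1 hk2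
  refine le_trans ?_ hsum
  rw [le_div_iff₀ (by positivity)]
  linarith

theorem low (c : ℝ) (hc : 1 < c) : ∃ c0 : ℝ, 0 < c0 ∧ ∃ N0 : ℕ, ∀ N : ℕ, N0 ≤ N →
    c0 * Real.log N ≤ ∑ k ∈ Icc 1 N, (tc c k : ℝ) / k := by
  obtain ⟨δ, hδ, Z1, hZ1⟩ := low_block c hc
  have hlog : 0 < Real.log 16 := Real.log_pos (by norm_num)
  refine ⟨δ / (2 * Real.log 16), by positivity, 16 ^ (2 * (1 + Z1)), ?_⟩
  intro N hN
  have hf : ∀ k : ℕ, 0 ≤ (tc c k : ℝ) / k := fun k => by positivity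
  have hind : ∀ j : ℕ, j * δ ≤ ∑ k ∈ Ico (16 ^ Z1) (16 ^ (Z1 + j)), (tc c k : ℝ) / k := by
    intro j
    induction j with
    | zero => simp
    | succ j ih =>
      rw [← Finset.sum_Ico_consecutive (fun k : ℕ => (tc c k : ℝ) / k)
        (Nat.pow_le_pow_right (by norm_num) (by omega : Z1 ≤ Z1 + j))
        (Nat.pow_le_pow_right (by norm_num) (by omega : Z1 + j ≤ Z1 + (j + 1)))]
      have h1 : δ ≤ ∑ k ∈ Ico (16 ^ (Z1 + j)) (16 ^ (Z1 + (j + 1))), (tc c k : ℝ) / k := by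
        have h2 : Z1 ≤ 4 ^ (Z1 + j) :=
          (Nat.lt_pow_self (by norm_num : 1 < 4)).le.trans
            (Nat.pow_le_pow_right (by norm_num) (by omega : Z1 ≤ Z1 + j))
        refine (hZ1 (4 ^ (Z1 + j)) h2).trans ?_
        apply Finset.sum_le_sum_of_subset_of_nonneg
        · intro k hk
          rw [mem_Icc] at hk
          rw [mem_Ico]
          have h3 : (4 ^ (Z1 + j)) ^ 2 = 16 ^ (Z1 + j) := by
            rw [← pow_mul, mul_comm, pow_mul]
            norm_num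
          rw [h3] at hk
          have h4 : 16 ^ (Z1 + (j + 1)) = 16 * 16 ^ (Z1 + j) := by
            rw [← add_assoc, pow_succ]
            ring
          rw [h4]
          have h5 : 0 < 16 ^ (Z1 + j) := by positivity
          omega
        · intro k _ _
          exact hf k
      push_cast
      linarith
  have hN0 : N ≠ 0 := by
    have : 0 < 16 ^ (2 * (1 + Z1)) := by positivity
    omega
  set M := Nat.log 16 N with hM
  have hM1 : 16 ^ M ≤ N := Nat.pow_log_le_self 16 hN0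
  have hM2 : N < 16 ^ (M + 1) := Nat.lt_pow_succ_log_self (by norm_num) N
  have hM3 : 2 * (1 + Z1) ≤ M := Nat.le_log_of_pow_le (by norm_num) hN
  have hlogN : Real.log N ≤ (M + 1) * Real.log 16 := by
    have h1 : Real.log N ≤ Real.log ((16 : ℝ) ^ (M + 1)) := by
      apply Real.log_le_log
      · exact_mod_cast Nat.pos_of_ne_zero hN0
      · exact_mod_cast hM2.le
    rw [Real.log_pow] at h1
    push_cast at h1
    exact h1
  have hsub : ∑ k ∈ Ico (16 ^ Z1) (16 ^ (Z1 + (M - Z1))), (tc c k : ℝ) / k ≤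
      ∑ k ∈ Icc 1 N, (tc c k : ℝ) / k := by
    apply Finset.sum_le_sum_of_subset_of_nonneg
    · intro k hk
      rw [mem_Ico] at hk
      rw [mem_Icc]
      have h1 : 0 < 16 ^ Z1 := by positivity
      have h2 : Z1 + (M - Z1) = M := by omega
      rw [h2] at hk
      omega
    · intro k _ _
      exact hf k
  refine le_trans ?_ ((hind (M - Z1)).trans hsub)
  have h3 : ((M - Z1 : ℕ) : ℝ) = M - Z1 := by
    rw [Nat.cast_sub (by omega)]
  rw [h3]
  have h4 : (2 * (1 + (Z1 : ℝ))) ≤ M := by exact_mod_cast hM3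
  have h5 : δ / (2 * Real.log 16) * Real.log N ≤ δ / (2 * Real.log 16) * ((M + 1) * Real.log 16) :=
    mul_le_mul_of_nonneg_left hlogN (by positivity)
  refine h5.trans ?_
  have h6 : δ / (2 * Real.log 16) * ((M + 1) * Real.log 16) = δ * ((M + 1) / 2) := by
    field_simp
  rw [h6]
  nlinarith

end Pool.Agent.Lib.MP_d57abb_nt.TZ
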