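import Pool.Agent.Lib.MP_d57abb_nt.TA.Defs3

/-!
# Stream Z (final deduction): definitions
-/

namespace Pool.Agent.Lib.MP_d57abb_nt.TZ

open Finset Pool.Agent.Lib.MP_d57abb_nt Pool.Agent.Lib.MP_d57abb_nt.TA

noncomputable section

/-- the quadratic polynomial -/
def ff (k : ℕ) : ℕ := k ^ 2 + 3 * k + 1

open Classical in
/-- the number of divisors `d` of `k² + 3 k + 1` with `k / c ≤ d ≤ c k` -/
def tc (c : ℝ) (k : ℕ) : ℕ := ((ff k).divisors.filter (fun d : ℕ => (k : ℝ) ≤ c * d ∧ (d : ℝ) ≤ c * k)).card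

/-- the number of prime factors of `k² + 3 k + 1` -/
def om (k : ℕ) : ℕ := ArithmeticFunction.cardFactors (ff k)

/-- the smooth sum -/
def Ts (ψ : ℝ → ℝ) (z : ℂ) (N : ℕ) : ℂ :=
  ∑ k ∈ Icc 1 N, (((∑ d ∈ (ff k).divisors, ψ ((d : ℝ) / k)) / k : ℝ) : ℂ) * z ^ om k

open Classical in
/-- the weighted number of divisors in `[α k, β k]` -/
def En (α β : ℝ) (N : ℕ) : ℝ :=
  ∑ k ∈ Icc 1 N, (((ff k).divisors.filter (fun d : ℕ => α * k ≤ d ∧ (d : ℝ) ≤ β * k)).card : ℝ) / k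

/-- the summand of a frame -/
def tm (ψ : ℝ → ℝ) (z : ℂ) (x : (ℤ × ℤ) × (ℤ × ℤ)) : ℂ :=
  ((ψ (nm x.1 / kk x.1 x.2) / kk x.1 x.2 : ℝ) : ℂ) * aa z x.1 * aa z x.2

end

end Pool.Agent.Lib.MP_d57abb_nt.TZ
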