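import Pool.Agent.Lib.MP_d57abb_nt.TZ.Defs
import Pool.Agent.Lib.MP_d57abb_nt.TA.Cone

/-!
# JOB Div (about 180 lines): the frames with `kk = k` are the divisors of `k² + 3 k + 1`

All vectors are in the closed quadrant (`Qd`), `dt v w = 1`.  `kk_eq` (Basic): `kk² + 3 kk + 1 = nm v * nm w`.
* `kk_nn`: `kk v w = v.1 w.1 + v.2 w.2 + 3 w.1 v.2`, all terms are nonnegative.  `kk_sub`, `nm_sub`, `kk_swap`...: ring identities (`unfold kk nm dt`, `linear_combination`).
* `step`: `1 = v.1 w.2 - w.1 v.2`.  If `w.1 ≥ v.1` and `w.2 ≥ v.2` then `w - v` is in the quadrant (and not zero: `dt v v = 0`); if `v.1 ≥ w.1` and `v.2 ≥ w.2`, the same for `v - w`.  If `w.1 > v.1` and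
  `w.2 < v.2`: `w.1 v.2 ≥ (v.1 + 1)(w.2 + 1) > v.1 w.2`: contradiction with `dt = 1`.  If `w.1 < v.1` and `w.2 > v.2`: `v.1 w.2 - w.1 v.2 ≥ (w.1 + 1)(v.2 + 1) - w.1 v.2 = w.1 + v.2 + 1`, so `w.1 = v.2 = 0`,
  `v.1 w.2 = 1`: `v = (1, 0)`, `w = (0, 1)`.
* `kk_zero`: `kk = 0` gives `w.1 v.2 = 0`, `v.1 w.2 = 1`, so `v.1 = w.2 = 1`, and `v.1 w.1 = 0`, `v.2 w.2 = 0`.
* `one_le_k`: for `d e = k² + 3 k + 1`, `k ≥ 1`: not both `d ≤ k`, `e ≤ k` (`d e ≤ k²`), and not both `d > k`, `e > k`: if both are `≥ k + 1` and one is `≥ k + 2` the product is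
  `≥ k² + 3 k + 2`, and `(k + 1)² ≠ k² + 3 k + 1`.
* `div_inj`: strong induction on `k = (kk v w).toNat`.  `k = 0`: `kk_zero`.  `k ≥ 1`: `nm w = nm w'` (from `kk_eq`, `nm v > 0`); let `d = nm v`, `e = nm w`.  If `d ≤ k`: by `step` `w - v` is in the quadrant,
  otherwise `v - w` is, and `kk (v - w) w = k - e ≥ 0` gives `e ≤ k`, against `one_le_k`.  The same for `w' - v'`.  `kk v (w - v) = k - d < k` (`d ≥ 1`), `dt v (w - v) = 1`: induction.  If `e ≤ k`:
  symmetric with `v - w`, `v' - w'` (the induction hypothesis needs equal norms of the first vectors: `nm (v - w) = nm v + nm w - 2 kk - 3`).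
* `div_surj`: strong induction on `k`; `k = 0`: `d = 1`, `((1,0),(0,1))`.  `k ≥ 1`, `d e = ff k`.  If `d ≤ k`: `d ∣ ff (k - d)` (`ff (k-d) = d e - 2 k d + d² - 3 d` in the integers), take `(v, w')` for
  `(k - d, d)` and `w = w' + v`.  If `e ≤ k`: do the same for `e` to get a frame `(v, w)` with `kk = k`, `nm v = e`, and take the swapped frame `((w.2, w.1), (v.2, v.1))`: its `dt` and `kk` are the same, its
  first norm is `nm w = ff k / e = d`.
* `frame_le`: e.g. `v.1 ≤ kk + 1`: if `w.1 ≥ 1` then `v.1 ≤ v.1 w.1 ≤ kk`; if `w.1 = 0` then `v.1 w.2 = 1`, `v.1 = 1`.  `v.2 ≤ v.2 w.2` if `w.2 ≥ 1`; `w.2 = 0` contradicts `dt = 1`.  The others by symmetry.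
* `sum_div`: `Finset.sum_bij` or `sum_nbij`: `x ↦ (nm x.1).toNat` from the filter to the divisors (`nm v ∣ ff k` by `kk_eq`), injective by `div_inj`, onto by `div_surj` and `frame_le`.
-/

namespace Pool.Agent.Lib.MP_d57abb_nt.TZ

open Finset Pool.Agent.Lib.MP_d57abb_nt Pool.Agent.Lib.MP_d57abb_nt.TA

theorem kk_nn {v w : ℤ × ℤ} (hv : Qd v) (hw : Qd w) : 0 ≤ kk v w := by
  unfold kk
  have h1 := mul_nonneg hv.1 hw.1
  have h2 := mul_nonneg hv.2.1 hw.2.1
  have h3 := mul_nonneg hw.1 hv.2.1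
  nlinarith

theorem kk_sub (v w : ℤ × ℤ) : kk v (w - v) = kk v w - nm v := by
  unfold kk nm
  simp only [Prod.fst_sub, Prod.snd_sub]
  ring

theorem nm_sub {v w : ℤ × ℤ} (h : dt v w = 1) : nm (w - v) = nm v + nm w - 2 * kk v w - 3 := by
  unfold kk nm
  unfold dt at h
  simp only [Prod.fst_sub, Prod.snd_sub]
  linear_combination (-3 : ℤ) * h

theorem step {v w : ℤ × ℤ} (hv : Qd v) (hw : Qd w) (h : dt v w = 1) :
    (v = (1, 0) ∧ w = (0, 1)) ∨ Qd (w - v) ∨ Qd (v - w) := by
  obtain ⟨hv1, hv2, hv3⟩ := hv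
  obtain ⟨hw1, hw2, hw3⟩ := hw
  unfold dt at h
  by_cases h1 : v.1 ≤ w.1
  · by_cases h2 : v.2 ≤ w.2
    · right
      left
      refine ⟨?_, ?_, ?_⟩
      · rw [Prod.fst_sub]
        linarith
      · rw [Prod.snd_sub]
        linarith
      · intro h0
        have h4 : w = v := sub_eq_zero.1 h0
        rw [h4] at h
        have : v.1 * v.2 - v.1 * v.2 = 0 := sub_self _
        rw [this] at h
        exact zero_ne_one h
    · right
      have h2' : w.2 + 1 ≤ v.2 := by omega
      by_cases h3 : w.1 ≤ v.1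
      · right
        refine ⟨?_, ?_, ?_⟩
        · rw [Prod.fst_sub]
          linarith
        · rw [Prod.snd_sub]
          linarith
        · intro h0
          have h4 : v = w := sub_eq_zero.1 h0
          rw [h4] at h2'
          omega
      · exfalso
        have h3' : v.1 + 1 ≤ w.1 := by omega
        nlinarith [mul_le_mul h3' h2' (by linarith) hw1]
  · have h1' : w.1 + 1 ≤ v.1 := by omega
    by_cases h2 : w.2 ≤ v.2
    · right
      right
      refine ⟨?_, ?_, ?_⟩
      · rw [Prod.fst_sub]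
        linarith
      · rw [Prod.snd_sub]
        linarith
      · intro h0
        have h4 : v = w := sub_eq_zero.1 h0
        rw [h4] at h1'
        omega
    · left
      have h2' : v.2 + 1 ≤ w.2 := by omega
      have h5 : (w.1 + 1) * (v.2 + 1) ≤ v.1 * w.2 := mul_le_mul h1' h2' (by linarith) hv1
      have h6 : w.1 + v.2 ≤ 0 := by nlinarith
      have h7 : w.1 = 0 := by omega
      have h8 : v.2 = 0 := by omega
      rw [h7, h8] at h
      have h9 : v.1 * w.2 = 1 := by linarith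
      have h10 : v.1 = 1 ∧ w.2 = 1 := by
        rcases Int.mul_eq_one_iff_eq_one_or_neg_one.1 h9 with h' | h'
        · exact h'
        · omega
      exact ⟨Prod.ext h10.1 h8, Prod.ext h7 h10.2⟩

theorem kk_zero {v w : ℤ × ℤ} (hv : Qd v) (hw : Qd w) (h : dt v w = 1) (hk : kk v w = 0) :
    v = (1, 0) ∧ w = (0, 1) := by
  obtain ⟨hv1, hv2, hv3⟩ := hv
  obtain ⟨hw1, hw2, hw3⟩ := hw
  unfold dt at h
  unfold kk at hk
  have h1 := mul_nonneg hv1 hw1
  have h2 := mul_nonneg hv2 hw2
  have h3 := mul_nonneg hw1 hv2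
  have e1 : v.1 * w.1 = 0 := by nlinarith
  have e2 : v.2 * w.2 = 0 := by nlinarith
  have e3 : w.1 * v.2 = 0 := by nlinarith
  have h9 : v.1 * w.2 = 1 := by linarith
  have h10 : v.1 = 1 ∧ w.2 = 1 := by
    rcases Int.mul_eq_one_iff_eq_one_or_neg_one.1 h9 with h' | h'
    · exact h'
    · omega
  rw [h10.1, one_mul] at e1
  rw [h10.2, mul_one] at e2
  exact ⟨Prod.ext h10.1 e2, Prod.ext e1 h10.2⟩

theorem one_le_k {k d e : ℤ} (hk : 1 ≤ k) (hd : 0 < d) (he : 0 < e) (h : d * e = k ^ 2 + 3 * k + 1) :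
    (d ≤ k ∧ k < e) ∨ (e ≤ k ∧ k < d) := by
  by_cases h1 : d ≤ k
  · left
    refine ⟨h1, ?_⟩
    by_contra h2
    have h3 : e ≤ k := by linarith
    have h4 : d * e ≤ k * k := mul_le_mul h1 h3 he.le (by linarith)
    nlinarith
  · right
    have h1' : k + 1 ≤ d := by omega
    refine ⟨?_, by omega⟩
    by_contra h2
    have h2' : k + 1 ≤ e := by omega
    by_cases h3 : d = k + 1
    · by_cases h4 : e = k + 1
      · rw [h3, h4] at h
        nlinarith
      · have h5 : k + 2 ≤ e := by omega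
        have h6 : (k + 1) * (k + 2) ≤ d * e := mul_le_mul h1' h5 (by linarith) hd.le
        nlinarith
    · have h5 : k + 2 ≤ d := by omega
      have h6 : (k + 2) * (k + 1) ≤ d * e := mul_le_mul h5 h2' (by linarith) hd.le
      nlinarith

private theorem Div_swap_kk (v w : ℤ × ℤ) : kk (v - w) w = kk v w - nm w := by
  unfold kk nm
  simp only [Prod.fst_sub, Prod.snd_sub]
  ring

private theorem Div_dt1 (v w : ℤ × ℤ) : dt v (w - v) = dt v w := by
  unfold dt
  simp only [Prod.fst_sub, Prod.snd_sub]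
  ring

private theorem Div_dt2 (v w : ℤ × ℤ) : dt (v - w) w = dt v w := by
  unfold dt
  simp only [Prod.fst_sub, Prod.snd_sub]
  ring

private theorem Div_nm (v w : ℤ × ℤ) : nm (v - w) = nm (w - v) := by
  unfold nm
  simp only [Prod.fst_sub, Prod.snd_sub]
  ring

/-- in the case `nm v ≤ kk v w` the difference `w - v` is in the quadrant -/
private theorem Div_left {v w : ℤ × ℤ} (hv : Qd v) (hw : Qd w) (h : dt v w = 1) (hk : 1 ≤ kk v w)
    (hd : kk v w < nm w) : Qd (w - v) := by
  rcases step hv hw h with ⟨e1, e2⟩ | h1 | h1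
  · rw [e1, e2] at hk
    unfold kk at hk
    norm_num at hk
  · exact h1
  · have h2 := kk_nn h1 hw
    rw [Div_swap_kk] at h2
    linarith

private theorem Div_right {v w : ℤ × ℤ} (hv : Qd v) (hw : Qd w) (h : dt v w = 1) (hk : 1 ≤ kk v w)
    (hd : kk v w < nm v) : Qd (v - w) := by
  rcases step hv hw h with ⟨e1, e2⟩ | h1 | h1
  · rw [e1, e2] at hk
    unfold kk at hk
    norm_num at hk
  · have h2 := kk_nn hv h1
    rw [kk_sub] at h2
    linarith
  · exact h1

private theorem Div_inj_aux (n : ℕ) : ∀ v w v' w' : ℤ × ℤ, Qd v → Qd w → dt v w = 1 → Qd v' → Qd w' →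
    dt v' w' = 1 → kk v w = n → kk v w = kk v' w' → nm v = nm v' → v = v' ∧ w = w' := by
  induction n using Nat.strong_induction_on with
  | _ n ih =>
    intro v w v' w' hv hw h hv' hw' h' hkn hk hn
    rcases Nat.eq_zero_or_pos n with h0 | hn0
    · subst h0
      have e1 := kk_zero hv hw h (by rw [hkn]; norm_num)
      have e2 := kk_zero hv' hw' h' (by rw [← hk, hkn]; norm_num)
      rw [e1.1, e1.2, e2.1, e2.2]
      exact ⟨rfl, rfl⟩
    · have hk1 : 1 ≤ kk v w := by
        rw [hkn]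
        exact_mod_cast hn0
      have hk1' : 1 ≤ kk v' w' := by rw [← hk]; exact hk1
      have hd0 : 0 < nm v := (tp_of_Qd hv).nm_pos
      have he0 : 0 < nm w := (tp_of_Qd hw).nm_pos
      have e1 := kk_eq h
      have e2 := kk_eq h'
      have hnw : nm w = nm w' := by
        rw [← hk, ← hn] at e2
        exact mul_left_cancel₀ hd0.ne' (e1.symm.trans e2)
      rcases one_le_k hk1 hd0 he0 e1.symm with ⟨c1, c2⟩ | ⟨c1, c2⟩
      · have q1 := Div_left hv hw h hk1 c2
        have q2 := Div_left hv' hw' h' hk1' (by rw [← hk, ← hnw]; exact c2)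
        have q3 := kk_nn hv q1
        have q4 := kk_sub v w
        have q5 := kk_sub v' w'
        obtain ⟨f1, f2⟩ := ih (kk v (w - v)).toNat (by omega) v (w - v) v' (w' - v') hv q1
          (by rw [Div_dt1]; exact h) hv' q2 (by rw [Div_dt1]; exact h')
          (Int.toNat_of_nonneg q3).symm (by rw [q4, q5, hk, hn]) hn
        refine ⟨f1, ?_⟩
        rw [f1] at f2
        exact sub_left_injective f2
      · have q1 := Div_right hv hw h hk1 c2
        have q2 := Div_right hv' hw' h' hk1' (by rw [← hk, ← hn]; exact c2)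
        have q3 := kk_nn q1 hw
        have q4 := Div_swap_kk v w
        have q5 := Div_swap_kk v' w'
        have q6 := nm_sub h
        have q7 := nm_sub h'
        obtain ⟨f1, f2⟩ := ih (kk (v - w) w).toNat (by omega) (v - w) w (v' - w') w' q1 hw
          (by rw [Div_dt2]; exact h) q2 hw' (by rw [Div_dt2]; exact h')
          (Int.toNat_of_nonneg q3).symm (by rw [q4, q5, hk, hnw])
          (by rw [Div_nm v w, Div_nm v' w', q6, q7, hk, hn, hnw])
        refine ⟨?_, f2⟩
        rw [f2] at f1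
        exact sub_left_injective f1

theorem div_inj {v w v' w' : ℤ × ℤ} (hv : Qd v) (hw : Qd w) (h : dt v w = 1) (hv' : Qd v') (hw' : Qd w')
    (h' : dt v' w' = 1) (hk : kk v w = kk v' w') (hn : nm v = nm v') : v = v' ∧ w = w' := by
  exact Div_inj_aux (kk v w).toNat v w v' w' hv hw h hv' hw' h'
    (Int.toNat_of_nonneg (kk_nn hv hw)).symm hk hn

theorem div_surj (k d : ℕ) (hd : d ∣ ff k) :
    ∃ v w : ℤ × ℤ, Qd v ∧ Qd w ∧ dt v w = 1 ∧ kk v w = k ∧ nm v = d := by
  induction k using Nat.strong_induction_on generalizing d with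
  | _ k ih =>
    rcases Nat.eq_zero_or_pos k with h0 | hk
    · subst h0
      have hd1 : d = 1 := by
        have : d ∣ 1 := by
          have h := hd
          unfold ff at h
          simpa using h
        exact Nat.dvd_one.1 this
      refine ⟨(1, 0), (0, 1), ⟨by norm_num, by norm_num, ?_⟩, ⟨by norm_num, by norm_num, ?_⟩, ?_, ?_, ?_⟩
      · intro h
        have := congrArg Prod.fst h
        simp at this
      · intro h
        have := congrArg Prod.snd h
        simp at this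
      · unfold dt
        norm_num
      · unfold kk
        norm_num
      · unfold nm
        rw [hd1]
        norm_num
    · have main : ∀ d : ℕ, 0 < d → d ≤ k → d ∣ ff k →
          ∃ v w : ℤ × ℤ, Qd v ∧ Qd w ∧ dt v w = 1 ∧ kk v w = k ∧ nm v = d := by
        intro d hd0 hdk hd
        obtain ⟨k', rfl⟩ := Nat.exists_eq_add_of_le hdk
        have h1 : ff (d + k') = ff k' + d * (2 * k' + d + 3) := by
          unfold ff
          ring
        rw [h1] at hd
        have h2 : d ∣ ff k' := (Nat.dvd_add_left (Dvd.intro _ rfl)).1 hd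
        obtain ⟨v, w, hv, hw, hdt, hkk, hnm⟩ := ih k' (by omega) d h2
        refine ⟨v, w + v, hv, hw.add hv, ?_, ?_, hnm⟩
        · unfold dt at hdt ⊢
          simp only [Prod.fst_add, Prod.snd_add]
          linear_combination hdt
        · have h3 := kk_sub v (w + v)
          rw [add_sub_cancel_right, hkk, hnm] at h3
          push_cast
          linarith
      obtain ⟨e, he⟩ := hd
      have hff : 0 < ff k := by
        unfold ff
        positivity
      have hd0 : 0 < d := by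
        rcases Nat.eq_zero_or_pos d with h | h
        · rw [h, zero_mul] at he
          omega
        · exact h
      have he0 : 0 < e := by
        rcases Nat.eq_zero_or_pos e with h | h
        · rw [h, mul_zero] at he
          omega
        · exact h
      have hz : (d : ℤ) * e = (k : ℤ) ^ 2 + 3 * k + 1 := by
        have h1 : ((ff k : ℕ) : ℤ) = ((d * e : ℕ) : ℤ) := by rw [he]
        unfold ff at h1
        push_cast at h1
        linarith
      rcases one_le_k (k := k) (d := d) (e := e) (by exact_mod_cast hk) (by exact_mod_cast hd0)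
        (by exact_mod_cast he0) hz with h | h
      · exact main d hd0 (by exact_mod_cast h.1) ⟨e, he⟩
      · obtain ⟨v, w, hv, hw, hdt, hkk, hnm⟩ := main e he0 (by exact_mod_cast h.1) ⟨d, by rw [he, mul_comm]⟩
        refine ⟨(w.2, w.1), (v.2, v.1), ⟨hw.2.1, hw.1, ?_⟩, ⟨hv.2.1, hv.1, ?_⟩, ?_, ?_, ?_⟩
        · intro h0
          apply hw.2.2
          exact Prod.ext (congrArg Prod.snd h0) (congrArg Prod.fst h0)
        · intro h0
          apply hv.2.2
          exact Prod.ext (congrArg Prod.snd h0) (congrArg Prod.fst h0)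
        · unfold dt at hdt ⊢
          simp only
          linear_combination hdt
        · unfold kk at hkk ⊢
          simp only
          linear_combination hkk
        · have h1 := kk_eq hdt
          rw [hkk, hnm, ← hz] at h1
          have h2 : nm (w.2, w.1) = nm w := by
            unfold nm
            simp only
            ring
          rw [h2]
          have h3 : (e : ℤ) ≠ 0 := by exact_mod_cast he0.ne'
          apply mul_left_cancel₀ h3
          linarith

theorem frame_le {v w : ℤ × ℤ} (hv : Qd v) (hw : Qd w) (h : dt v w = 1) :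
    v.1 ≤ kk v w + 1 ∧ v.2 ≤ kk v w + 1 ∧ w.1 ≤ kk v w + 1 ∧ w.2 ≤ kk v w + 1 := by
  obtain ⟨hv1, hv2, hv3⟩ := hv
  obtain ⟨hw1, hw2, hw3⟩ := hw
  unfold dt at h
  unfold kk
  have h1 := mul_nonneg hv1 hw1
  have h2 := mul_nonneg hv2 hw2
  have h3 := mul_nonneg hw1 hv2
  have g1 : 1 ≤ v.1 := by
    by_contra hc
    have : v.1 = 0 := by omega
    rw [this] at h
    linarith
  have g2 : 1 ≤ w.2 := by
    by_contra hc
    have : w.2 = 0 := by omega
    rw [this] at h
    linarith
  refine ⟨?_, ?_, ?_, ?_⟩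
  · by_cases hc : w.1 = 0
    · rw [hc] at h ⊢
      have h9 : v.1 * w.2 = 1 := by linarith
      nlinarith
    · have : 1 ≤ w.1 := by omega
      nlinarith
  · nlinarith
  · nlinarith
  · by_cases hc : v.2 = 0
    · rw [hc] at h ⊢
      have h9 : v.1 * w.2 = 1 := by linarith
      nlinarith
    · have : 1 ≤ v.2 := by omega
      nlinarith

theorem sum_div {E : Type*} [AddCommMonoid E] (k N : ℕ) (hN : k + 1 ≤ N) (F : ℤ → E) :
    ∑ x ∈ (pr N 1).filter (fun x => kk x.1 x.2 = k), F (nm x.1) = ∑ d ∈ (ff k).divisors, F d := by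
  have hB : ∀ v : ℤ × ℤ, v ∈ Bx N ↔ (0 ≤ v.1 ∧ v.1 ≤ N) ∧ (0 ≤ v.2 ∧ v.2 ≤ N) := by
    intro v
    unfold Bx
    rw [Finset.mem_product, Finset.mem_Icc, Finset.mem_Icc]
  have hmem : ∀ x : (ℤ × ℤ) × (ℤ × ℤ), x ∈ (pr N 1).filter (fun x => kk x.1 x.2 = k) →
      Qd x.1 ∧ Qd x.2 ∧ dt x.1 x.2 = 1 ∧ kk x.1 x.2 = k := by
    intro x hx
    obtain ⟨hx1, hx2⟩ := Finset.mem_filter.1 hx
    unfold pr at hx1
    obtain ⟨hx3, hx4⟩ := Finset.mem_filter.1 hx1
    obtain ⟨hx5, hx6⟩ := Finset.mem_product.1 hx3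
    rw [hB] at hx5 hx6
    refine ⟨⟨hx5.1.1, hx5.2.1, ?_⟩, ⟨hx6.1.1, hx6.2.1, ?_⟩, hx4, hx2⟩
    · intro h0
      rw [h0] at hx4
      unfold dt at hx4
      simp at hx4
    · intro h0
      rw [h0] at hx4
      unfold dt at hx4
      simp at hx4
  have hnmnat : ∀ x : (ℤ × ℤ) × (ℤ × ℤ), x ∈ (pr N 1).filter (fun x => kk x.1 x.2 = k) →
      (((nm x.1).toNat : ℕ) : ℤ) = nm x.1 := by
    intro x hx
    exact Int.toNat_of_nonneg (tp_of_Qd (hmem x hx).1).nm_pos.le
  refine Finset.sum_nbij (fun x => (nm x.1).toNat) ?_ ?_ ?_ ?_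
  · intro x hx
    obtain ⟨h1, h2, h3, h4⟩ := hmem x hx
    refine Nat.mem_divisors.2 ⟨?_, ?_⟩
    · have h5 := kk_eq h3
      rw [h4] at h5
      have h6 : (((nm x.1).toNat : ℕ) : ℤ) ∣ ((ff k : ℕ) : ℤ) := by
        rw [hnmnat x hx]
        refine ⟨nm x.2, ?_⟩
        unfold ff
        push_cast
        linarith
      exact_mod_cast h6
    · unfold ff
      positivity
  · intro x hx y hy hxy
    have hx' := Finset.mem_coe.1 hx
    have hy' := Finset.mem_coe.1 hy
    obtain ⟨h1, h2, h3, h4⟩ := hmem x hx'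
    obtain ⟨k1, k2, k3, k4⟩ := hmem y hy'
    have h5 : nm x.1 = nm y.1 := by
      rw [← hnmnat x hx', ← hnmnat y hy']
      exact congrArg _ hxy
    obtain ⟨e1, e2⟩ := div_inj h1 h2 h3 k1 k2 k3 (h4.trans k4.symm) h5
    exact Prod.ext e1 e2
  · intro d hd
    have hd' := Finset.mem_coe.1 hd
    obtain ⟨v, w, hv, hw, hdt, hkk, hnm⟩ := div_surj k d (Nat.dvd_of_mem_divisors hd')
    obtain ⟨f1, f2, f3, f4⟩ := frame_le hv hw hdt
    rw [hkk] at f1 f2 f3 f4
    have hN' : (k : ℤ) + 1 ≤ N := by exact_mod_cast hN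
    refine ⟨(v, w), Finset.mem_coe.2 (Finset.mem_filter.2 ⟨?_, hkk⟩), ?_⟩
    · unfold pr
      refine Finset.mem_filter.2 ⟨Finset.mem_product.2 ⟨(hB v).2 ?_, (hB w).2 ?_⟩, hdt⟩
      · exact ⟨⟨hv.1, f1.trans hN'⟩, hv.2.1, f2.trans hN'⟩
      · exact ⟨⟨hw.1, f3.trans hN'⟩, hw.2.1, f4.trans hN'⟩
    · change (nm v).toNat = d
      rw [hnm]
      exact Int.toNat_natCast d
  · intro x hx
    rw [hnmnat x hx]

end Pool.Agent.Lib.MP_d57abb_nt.TZ
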